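import Pool.Agent.H342SG.Main

/-!
# The least weight of an omega-bounded abelian group that is not projectively weight-small

`sigma` is the least weight of an omega-bounded abelian Hausdorff topological group which is not
projectively weight-small.  We show that `sigma` is the successor of a cardinal `κ` between `𝔠`
and `2 ^ 𝔠` which carries a thin family of sets, that `sigma = 𝔠⁺` holds exactly when `𝔠` carries
such a family, and that under the continuum hypothesis `sigma = 𝔠⁺` is equivalent to Kurepa's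
hypothesis.  Under `𝔠 = ℵ₁` and `2 ^ ℵ₁ = ℵ₂` the value of `sigma` is `ℵ₂` if Kurepa's hypothesis
holds, and `ℵ₃` otherwise.
-/

set_option autoImplicit false

namespace Pool.Agent.Results.MP_14431a_gt.Sigma

open Cardinal Pool.Agent.H342SG

theorem result :
    -- the least bad weight is a bad weight
    Bad sigma ∧
    -- bounds
    (Order.succ 𝔠 ≤ sigma ∧ sigma ≤ Order.succ (2 ^ (𝔠 : Cardinal.{0}))) ∧
    -- the value
    (∃ κ : Cardinal.{0}, 𝔠 ≤ κ ∧ κ ≤ 2 ^ (𝔠 : Cardinal.{0}) ∧ Thin κ ∧ sigma = Order.succ κ) ∧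
    (∀ κ : Cardinal.{0}, 𝔠 ≤ κ → κ ^ ℵ₀ = κ → Thin κ → sigma ≤ Order.succ κ) ∧
    ((∀ κ : Cardinal.{0}, 𝔠 ≤ κ → κ ≤ 2 ^ (𝔠 : Cardinal.{0}) → κ ^ ℵ₀ = κ) →
      sigma = sInf {ν | ∃ κ : Cardinal.{0}, 𝔠 ≤ κ ∧ Thin κ ∧ ν = Order.succ κ}) ∧
    -- the question whether `sigma = 𝔠⁺`
    (sigma = Order.succ 𝔠 ↔ Thin 𝔠) ∧
    ((2 : Cardinal.{0}) ^ (𝔠 : Cardinal.{0}) = Order.succ 𝔠 →
      ¬ Thin 𝔠 → sigma = Order.succ (Order.succ 𝔠)) ∧
    ((𝔠 : Cardinal.{0}) < (2 : Cardinal.{0}) ^ (ℵ_ 1 : Cardinal.{0}) →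
      (sigma = Order.succ 𝔠 ↔ KurepaFamily 𝔠)) ∧
    -- under the continuum hypothesis
    ((𝔠 : Cardinal.{0}) = ℵ_ 1 → (sigma = Order.succ 𝔠 ↔ KurepaHypothesis)) ∧
    ((𝔠 : Cardinal.{0}) = ℵ_ 1 → (2 : Cardinal.{0}) ^ (ℵ_ 1 : Cardinal.{0}) = ℵ_ 2 →
      (KurepaHypothesis → sigma = ℵ_ 2) ∧ (¬ KurepaHypothesis → sigma = ℵ_ 3)) := by
  have hlow : Order.succ 𝔠 ≤ sigma := by
    obtain ⟨κ, hκ, -, hs⟩ := sigma_eq
    rw [hs]
    exact Order.succ_le_succ_iff.2 hκ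
  have hK : (𝔠 : Cardinal.{0}) < (2 : Cardinal.{0}) ^ (ℵ_ 1 : Cardinal.{0}) →
      (sigma = Order.succ 𝔠 ↔ KurepaFamily 𝔠) := fun h =>
    sigma_eq_iff.trans (thin_iff_kurepaFamily h)
  have hCH : (𝔠 : Cardinal.{0}) = ℵ_ 1 → (sigma = Order.succ 𝔠 ↔ KurepaHypothesis) := by
    intro h
    have h1 := hK (by rw [h]; exact cantor _)
    rw [h1, h]
    exact kurepaFamily_iff
  refine ⟨bad_sigma, ⟨hlow, sigma_upper⟩, sigma_eq', ?_, sigma_eq_sInf, sigma_eq_iff,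
    sigma_of_not_thin, hK, hCH, ?_⟩
  · intro κ hκ hκ2 hT
    exact sigma_le (bad_of_thin (aleph0_le_continuum.trans hκ) hκ2 hT)
  · intro h h2
    have h3 : Order.succ (𝔠 : Cardinal.{0}) = ℵ_ 2 := by rw [h, aleph_two]
    refine ⟨fun hKH => ?_, fun hKH => ?_⟩
    · rw [← h3]
      exact (hCH h).2 hKH
    · rw [aleph_three, ← h3]
      refine sigma_of_not_thin ?_ ?_
      · rw [h3, h, h2]
      · intro hT
        exact hKH ((hCH h).1 (sigma_eq_iff.2 hT))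

end Pool.Agent.Results.MP_14431a_gt.Sigma
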